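import Mathlib

set_option autoImplicit false

/-!
# An `i`-graph without a well-covered seed graph

The three-dimensional cube with one vertex removed is the `i`-graph of a tree on seven vertices
(the subdivided star with three legs), but it is not the `i`-graph of any well-covered graph.
-/

namespace Pool.Agent.Results.MP_88e7bb_co.CubeMinusVertex

universe u

variable {V : Type u}

/-- `S` is an independent dominating set of `G`: no two vertices of `S` are adjacent, and every
vertex outside `S` has a neighbour in `S`. -/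
def IndepDom (G : SimpleGraph V) (S : Finset V) : Prop :=
  (∀ x ∈ S, ∀ y ∈ S, ¬ G.Adj x y) ∧ ∀ x, x ∉ S → ∃ y ∈ S, G.Adj x y

/-- `S` is an `i`-set of `G`: an independent dominating set of minimum cardinality. -/
def IsISet (G : SimpleGraph V) (S : Finset V) : Prop :=
  IndepDom G S ∧ ∀ T : Finset V, IndepDom G T → S.card ≤ T.card

/-- `Y` arises from `X` by sliding one vertex of `X` along an edge of `G`: there are `x ∈ X`,
`y ∈ Y` with `x y` an edge of `G` and `Y = (X \ {x}) ∪ {y}`. -/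
def Slide (G : SimpleGraph V) (X Y : Finset V) : Prop :=
  ∃ x ∈ X, ∃ y ∈ Y, G.Adj x y ∧ (Y : Set V) = ((X : Set V) \ {x}) ∪ {y}

/-- Membership form of `Slide`, for independent sets. -/
theorem Slide.form {G : SimpleGraph V} {X Y : Finset V} (hX : IndepDom G X) (h : Slide G X Y) :
    ∃ x y, x ∈ X ∧ y ∉ X ∧ G.Adj x y ∧ ∀ v, v ∈ Y ↔ (v = y ∨ (v ∈ X ∧ v ≠ x)) := by
  obtain ⟨x, hx, y, hy, hxy, hYX⟩ := h
  refine ⟨x, y, hx, fun hyX => hX.1 x hx y hyX hxy, hxy, fun v => ?_⟩
  have := Set.ext_iff.1 hYX v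
  simp only [Finset.mem_coe, Set.mem_union, Set.mem_sdiff, Set.mem_singleton_iff] at this
  tauto

theorem Slide.of_form {G : SimpleGraph V} {X Y : Finset V} {x y : V} (hx : x ∈ X)
    (hxy : G.Adj x y) (h : ∀ v, v ∈ Y ↔ (v = y ∨ (v ∈ X ∧ v ≠ x))) : Slide G X Y := by
  refine ⟨x, hx, y, (h y).2 (Or.inl rfl), hxy, ?_⟩
  ext v
  have := h v
  simp only [Finset.mem_coe, Set.mem_union, Set.mem_sdiff, Set.mem_singleton_iff]
  tauto

theorem Slide.symm {G : SimpleGraph V} {X Y : Finset V} (hX : IndepDom G X) (h : Slide G X Y) :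
    Slide G Y X := by
  obtain ⟨x, y, hx, hy, hxy, hm⟩ := h.form hX
  refine Slide.of_form (x := y) (y := x) ((hm y).2 (Or.inl rfl)) hxy.symm (fun v => ?_)
  have := hm v
  constructor
  · intro hv
    by_cases hvx : v = x
    · exact Or.inl hvx
    · refine Or.inr ⟨this.2 (Or.inr ⟨hv, hvx⟩), ?_⟩
      rintro rfl
      exact hy hv
  · rintro (rfl | ⟨hv, hvy⟩)
    · exact hx
    · rcases this.1 hv with h1 | h1
      · exact absurd h1 hvy
      · exact h1.1

theorem Slide.ne {G : SimpleGraph V} {X Y : Finset V} (hX : IndepDom G X) (h : Slide G X Y) :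
    X ≠ Y := by
  rintro rfl
  obtain ⟨x, hx, y, hy, hxy, -⟩ := h
  exact hX.1 x hx y hy hxy

/-- The `i`-graph of `G`: its vertices are the `i`-sets of `G`, and `X`, `Y` are adjacent iff
there are `x ∈ X`, `y ∈ Y` with `x y` an edge of `G` and `Y = (X \ {x}) ∪ {y}`. -/
def iGraph (G : SimpleGraph V) : SimpleGraph {S : Finset V // IsISet G S} where
  Adj X Y := Slide G X.1 Y.1
  symm := ⟨fun X _ h => Slide.symm X.2.1 h⟩
  loopless := ⟨fun X h => Slide.ne X.2.1 h rfl⟩

/-- `G` is well-covered: all its maximal independent sets (that is, all its independent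
dominating sets) have the same size. -/
def WellCovered (G : SimpleGraph V) : Prop :=
  ∀ S T : Finset V, IndepDom G S → IndepDom G T → S.card = T.card

/-- The three-dimensional cube with the vertex `(true, true, true)` removed: two `0/1`-vectors
are adjacent iff they differ in exactly one coordinate. -/
def cubeMinus : SimpleGraph {x : Fin 3 → Bool // x ≠ fun _ => true} where
  Adj x y := ∃! i, x.1 i ≠ y.1 i
  symm := ⟨fun _ _ ⟨i, hi, hu⟩ => ⟨i, Ne.symm hi, fun j hj => hu j (Ne.symm hj)⟩⟩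
  loopless := ⟨fun _ ⟨_, hi, _⟩ => hi rfl⟩

/-! ### The seed graph: a tree on seven vertices -/

/-- The subdivided star with three legs: the centre `none` is joined to the three vertices
`some (i, false)`, and `some (i, false)` is joined to the leaf `some (i, true)`. -/
def seed : SimpleGraph (Option (Fin 3 × Bool)) where
  Adj p q := (p = none ∧ ∃ i, q = some (i, false)) ∨ (q = none ∧ ∃ i, p = some (i, false)) ∨
    (∃ i a b, a ≠ b ∧ p = some (i, a) ∧ q = some (i, b))
  symm := ⟨by
    rintro p q (h | h | ⟨i, a, b, hab, h1, h2⟩)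
    · exact Or.inr (Or.inl h)
    · exact Or.inl h
    · exact Or.inr (Or.inr ⟨i, b, a, hab.symm, h2, h1⟩)⟩
  loopless := ⟨by
    rintro p (⟨rfl, i, h⟩ | ⟨rfl, i, h⟩ | ⟨i, a, b, hab, rfl, h2⟩)
    · exact absurd h (by simp)
    · exact absurd h (by simp)
    · exact hab (by simpa using h2)⟩

theorem seed_none_some (i : Fin 3) (a : Bool) : seed.Adj none (some (i, a)) ↔ a = false := by
  constructor
  · rintro (⟨_, j, h⟩ | ⟨h, _⟩ | ⟨j, b, c, _, h, _⟩)
    · simp at h; exact h.2
    · simp at h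
    · simp at h
  · rintro rfl
    exact Or.inl ⟨rfl, i, rfl⟩

theorem seed_some_some (i j : Fin 3) (a b : Bool) :
    seed.Adj (some (i, a)) (some (j, b)) ↔ i = j ∧ a ≠ b := by
  constructor
  · rintro (⟨h, _⟩ | ⟨h, _⟩ | ⟨k, c, d, hcd, h1, h2⟩)
    · simp at h
    · simp at h
    · simp only [Option.some.injEq, Prod.mk.injEq] at h1 h2
      obtain ⟨rfl, rfl⟩ := h1
      obtain ⟨rfl, rfl⟩ := h2
      exact ⟨rfl, hcd⟩
  · rintro ⟨rfl, hab⟩
    exact Or.inr (Or.inr ⟨i, a, b, hab, rfl, rfl⟩)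

/-- The transversal of the three legs chosen by `x`. -/
def trans (x : Fin 3 → Bool) : Finset (Option (Fin 3 × Bool)) :=
  Finset.univ.image (fun i => some (i, x i))

theorem mem_trans (x : Fin 3 → Bool) (i : Fin 3) (a : Bool) :
    some (i, a) ∈ trans x ↔ a = x i := by
  simp only [trans, Finset.mem_image, Finset.mem_univ, true_and, Option.some.injEq,
    Prod.mk.injEq]
  constructor
  · rintro ⟨j, rfl, rfl⟩; rfl
  · rintro rfl; exact ⟨i, rfl, rfl⟩

theorem none_not_mem_trans (x : Fin 3 → Bool) : none ∉ trans x := by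
  simp [trans]

theorem card_trans (x : Fin 3 → Bool) : (trans x).card = 3 := by
  rw [trans, Finset.card_image_of_injective]
  · simp
  · intro i j h
    simp only [Option.some.injEq, Prod.mk.injEq] at h
    exact h.1

theorem trans_injective : Function.Injective trans := by
  intro x y h
  funext i
  have := (mem_trans x i (x i)).2 rfl
  rw [h, mem_trans] at this
  exact this

theorem indepDom_trans {x : Fin 3 → Bool} (hx : x ≠ fun _ => true) : IndepDom seed (trans x) := by
  constructor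
  · rintro (_ | ⟨i, a⟩) hp (_ | ⟨j, b⟩) hq h
    · exact none_not_mem_trans x hp
    · exact none_not_mem_trans x hp
    · exact none_not_mem_trans x hq
    · rw [mem_trans] at hp hq
      rw [seed_some_some] at h
      obtain ⟨rfl, h⟩ := h
      exact h (hp.trans hq.symm)
  · rintro (_ | ⟨i, a⟩) hp
    · obtain ⟨i, hi⟩ : ∃ i, x i ≠ true := by
        by_contra hcon
        push Not at hcon
        exact hx (funext hcon)
      refine ⟨some (i, x i), (mem_trans x i _).2 rfl, ?_⟩
      rw [seed_none_some]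
      simpa using hi
    · rw [mem_trans] at hp
      exact ⟨some (i, x i), (mem_trans x i _).2 rfl, (seed_some_some _ _ _ _).2 ⟨rfl, hp⟩⟩

/-- An independent dominating set of the seed contains exactly one vertex of each leg, and it
either contains the centre or is one of the transversals `trans x`. -/
theorem indepDom_seed {T : Finset (Option (Fin 3 × Bool))} (hT : IndepDom seed T) :
    (∃ x : Fin 3 → Bool, x ≠ (fun _ => true) ∧ T = trans x) ∨ 4 ≤ T.card := by
  classical
  have key : ∀ i, (some (i, true) ∈ T ↔ some (i, false) ∉ T) := by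
    intro i
    constructor
    · intro h1 h2
      exact hT.1 _ h1 _ h2 ((seed_some_some _ _ _ _).2 ⟨rfl, by simp⟩)
    · intro h2
      by_contra h1
      obtain ⟨y, hy, hadj⟩ := hT.2 _ h1
      rcases y with _ | ⟨j, b⟩
      · have := (seed_none_some _ _).1 hadj.symm
        simp at this
      · obtain ⟨rfl, hb⟩ := (seed_some_some _ _ _ _).1 hadj
        have hb' : b = false := by
          cases b
          · rfl
          · exact absurd rfl hb
        subst hb'
        exact h2 hy
  by_cases hn : none ∈ T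
  · right
    have hsub : insert none (trans fun _ => true) ⊆ T := by
      intro p hp
      rw [Finset.mem_insert] at hp
      rcases hp with rfl | hp
      · exact hn
      · rcases p with _ | ⟨i, a⟩
        · exact hn
        · rw [mem_trans] at hp
          subst hp
          refine (key i).2 (fun h => ?_)
          exact hT.1 _ hn _ h ((seed_none_some _ _).2 rfl)
    calc 4 = (insert none (trans fun _ => true)).card := by
          rw [Finset.card_insert_of_notMem (none_not_mem_trans _), card_trans]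
      _ ≤ T.card := Finset.card_le_card hsub
  · left
    refine ⟨fun i => decide (some (i, true) ∈ T), ?_, ?_⟩
    · intro hx
      obtain ⟨y, hy, hadj⟩ := hT.2 _ hn
      rcases y with _ | ⟨j, b⟩
      · exact hn hy
      · have hb := (seed_none_some _ _).1 hadj
        subst hb
        have h1 := congrFun hx j
        simp only [decide_eq_true_eq] at h1
        exact (key j).1 h1 hy
    · ext p
      rcases p with _ | ⟨i, a⟩
      · simp only [none_not_mem_trans, iff_false]
        exact hn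
      · rw [mem_trans]
        cases a
        · have := key i
          by_cases h : some (i, true) ∈ T
          · simp only [h, decide_true]
            simp [this.1 h]
          · simp only [h, decide_false, iff_true]
            by_contra h'
            exact h (this.2 h')
        · by_cases h : some (i, true) ∈ T
          · simp [h]
          · simp [h]

theorem isISet_trans {x : Fin 3 → Bool} (hx : x ≠ fun _ => true) : IsISet seed (trans x) := by
  refine ⟨indepDom_trans hx, fun T hT => ?_⟩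
  rw [card_trans]
  rcases indepDom_seed hT with ⟨y, _, rfl⟩ | h
  · rw [card_trans]
  · omega

theorem isISet_seed {T : Finset (Option (Fin 3 × Bool))} (hT : IsISet seed T) :
    ∃ x : Fin 3 → Bool, x ≠ (fun _ => true) ∧ T = trans x := by
  rcases indepDom_seed hT.1 with h | h
  · exact h
  · have hx : (fun _ : Fin 3 => false) ≠ fun _ => true := by
      intro h
      exact absurd (congrFun h 0) (by simp)
    have := hT.2 _ (indepDom_trans hx)
    rw [card_trans] at this
    omega

theorem slide_trans (x y : Fin 3 → Bool) :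
    Slide seed (trans x) (trans y) ↔ ∃! i, x i ≠ y i := by
  constructor
  · rintro ⟨p, hp, q, hq, hpq, h⟩
    rcases p with _ | ⟨i, a⟩
    · exact absurd hp (none_not_mem_trans x)
    rcases q with _ | ⟨j, b⟩
    · exact absurd hq (none_not_mem_trans y)
    rw [mem_trans] at hp hq
    obtain ⟨rfl, hab⟩ := (seed_some_some _ _ _ _).1 hpq
    refine ⟨i, by show x i ≠ y i; rw [← hp, ← hq]; exact hab, fun j hj => ?_⟩
    by_contra hji
    apply hj
    have h1 : some (j, y j) ∈ (trans y : Set (Option (Fin 3 × Bool))) :=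
      (mem_trans y j _).2 rfl
    rw [h] at h1
    rcases h1 with ⟨h1, _⟩ | h1
    · exact ((mem_trans x j _).1 h1).symm
    · simp only [Set.mem_singleton_iff, Option.some.injEq, Prod.mk.injEq] at h1
      exact absurd h1.1 hji
  · rintro ⟨i, hi, hu⟩
    refine Slide.of_form (x := some (i, x i)) (y := some (i, y i)) ((mem_trans x i _).2 rfl)
      ((seed_some_some _ _ _ _).2 ⟨rfl, hi⟩) ?_
    rintro (_ | ⟨j, b⟩)
    · simp [none_not_mem_trans]
    · rw [mem_trans, mem_trans]
      simp only [Option.some.injEq, Prod.mk.injEq, ne_eq, not_and]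
      by_cases hj : j = i
      · subst hj
        constructor
        · rintro rfl; exact Or.inl ⟨rfl, rfl⟩
        · rintro (⟨_, h⟩ | ⟨h1, h2⟩)
          · exact h
          · exact absurd h1 (h2 rfl)
      · have : x j = y j := by
          by_contra hne
          exact hj (hu j hne)
        rw [this]
        constructor
        · rintro rfl; exact Or.inr ⟨rfl, fun h => absurd h hj⟩
        · rintro (⟨h, _⟩ | ⟨h1, _⟩)
          · exact absurd h hj
          · exact h1

/-- The `i`-graph of the seed is the cube minus a vertex. -/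
theorem nonempty_iso : Nonempty (iGraph seed ≃g cubeMinus) := by
  let f : {x : Fin 3 → Bool // x ≠ fun _ => true} → {S // IsISet seed S} :=
    fun x => ⟨trans x.1, isISet_trans x.2⟩
  have hf : Function.Bijective f := by
    constructor
    · intro x y h
      apply Subtype.ext
      exact trans_injective (congrArg Subtype.val h)
    · rintro ⟨T, hT⟩
      obtain ⟨x, hx, rfl⟩ := isISet_seed hT
      exact ⟨⟨x, hx⟩, rfl⟩
  refine ⟨(⟨Equiv.ofBijective f hf, ?_⟩ : cubeMinus ≃g iGraph seed).symm⟩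
  intro x y
  exact slide_trans x.1 y.1

/-! ### No seed graph is well-covered -/

/-- Two slides out of `X` whose results are distinct and not adjacent move distinct vertices
to distinct places. -/
theorem distinct_moves {G : SimpleGraph V} {X Y Z : Finset V}
    (hY : IndepDom G Y) (hZ : IndepDom G Z)
    {a a' b b' : V} (ha' : a' ∈ X) (ha : a ∉ X) (haa : G.Adj a' a)
    (hYm : ∀ v, v ∈ Y ↔ (v = a ∨ (v ∈ X ∧ v ≠ a')))
    (hb : b ∉ X)
    (hZm : ∀ v, v ∈ Z ↔ (v = b ∨ (v ∈ X ∧ v ≠ b')))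
    (hYZ : ¬ Slide G Y Z) (hne : Y ≠ Z) : a' ≠ b' ∧ a ≠ b := by
  have h1 : a' ≠ b' := by
    rintro rfl
    have hab : a ≠ b := by
      rintro rfl
      exact hne (Finset.ext fun v => (hYm v).trans (hZm v).symm)
    have hbY : b ∉ Y := by
      intro h
      rcases (hYm b).1 h with h | h
      · exact hab h.symm
      · exact hb h.1
    obtain ⟨y, hy, hby⟩ := hY.2 b hbY
    have hya : y = a := by
      rcases (hYm y).1 hy with h | h
      · exact h
      · exact absurd hby (hZ.1 b ((hZm b).2 (Or.inl rfl)) y ((hZm y).2 (Or.inr h)))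
    subst hya
    apply hYZ
    refine Slide.of_form hy hby.symm (fun v => ?_)
    rw [hZm v, hYm v]
    constructor
    · rintro (h | h)
      · exact Or.inl h
      · refine Or.inr ⟨Or.inr h, ?_⟩
        rintro rfl
        exact ha h.1
    · rintro (h | ⟨h | h, h2⟩)
      · exact Or.inl h
      · exact absurd h h2
      · exact Or.inr h
  refine ⟨h1, ?_⟩
  rintro rfl
  exact hZ.1 a' ((hZm a').2 (Or.inr ⟨ha', h1⟩)) a ((hZm a).2 (Or.inl rfl)) haa

/-- If `Y = X - a' + a` and `W` is another neighbour of `Y`, not adjacent to `X`, then `a`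
stays in `W`. -/
theorem stays {G : SimpleGraph V} {X Y W : Finset V}
    (hX : IndepDom G X) (hY : IndepDom G Y) (hW : IndepDom G W)
    {a a' : V} (ha' : a' ∈ X)
    (hYm : ∀ v, v ∈ Y ↔ (v = a ∨ (v ∈ X ∧ v ≠ a')))
    (ha : a ∉ X) (hYW : Slide G Y W) (hXW : ¬ Slide G X W) (hne : W ≠ X) : a ∈ W := by
  obtain ⟨p, q, hp, hq, hpq, hWm⟩ := hYW.form hY
  by_contra haW
  have hpa : p = a := by
    by_contra h
    apply haW
    exact (hWm a).2 (Or.inr ⟨(hYm a).2 (Or.inl rfl), fun h' => h h'.symm⟩)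
  subst hpa
  have hWm' : ∀ v, v ∈ W ↔ (v = q ∨ (v ∈ X ∧ v ≠ a')) := by
    intro v
    rw [hWm v, hYm v]
    constructor
    · rintro (h | ⟨h | h, h2⟩)
      · exact Or.inl h
      · exact absurd h h2
      · exact Or.inr h
    · rintro (h | h)
      · exact Or.inl h
      · refine Or.inr ⟨Or.inr h, ?_⟩
        rintro rfl
        exact ha h.1
  have hqa : q ≠ a' := by
    rintro rfl
    apply hne
    ext v
    rw [hWm' v]
    by_cases hv : v = q
    · subst hv
      simp [ha']
    · simp [hv]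
  have hqX : q ∉ X := by
    intro h
    exact hq ((hYm q).2 (Or.inr ⟨h, hqa⟩))
  obtain ⟨y, hy, hqy⟩ := hX.2 q hqX
  have hya : y = a' := by
    by_contra h
    exact hW.1 q ((hWm' q).2 (Or.inl rfl)) y ((hWm' y).2 (Or.inr ⟨hy, h⟩)) hqy
  subst hya
  exact hXW (Slide.of_form hy hqy.symm hWm')

/-- The fourth corner of a square is obtained by performing both moves. -/
theorem fourth_corner {G : SimpleGraph V} {X Y Z W : Finset V}
    (hX : IndepDom G X) (hY : IndepDom G Y) (hZ : IndepDom G Z) (hW : IndepDom G W)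
    {a a' b b' : V} (ha' : a' ∈ X) (ha : a ∉ X) (haa : G.Adj a' a)
    (hYm : ∀ v, v ∈ Y ↔ (v = a ∨ (v ∈ X ∧ v ≠ a')))
    (hb' : b' ∈ X) (hb : b ∉ X) (hbb : G.Adj b' b)
    (hZm : ∀ v, v ∈ Z ↔ (v = b ∨ (v ∈ X ∧ v ≠ b')))
    (hYZ : ¬ Slide G Y Z) (hne : Y ≠ Z)
    (hYW : Slide G Y W) (hZW : Slide G Z W) (hXW : ¬ Slide G X W) (hWX : W ≠ X) :
    ∀ v, v ∈ W ↔ (v = a ∨ v = b ∨ (v ∈ X ∧ v ≠ a' ∧ v ≠ b')) := by
  obtain ⟨hab', hab⟩ := distinct_moves hY hZ ha' ha haa hYm hb hZm hYZ hne
  have haW : a ∈ W := stays hX hY hW ha' hYm ha hYW hXW hWX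
  have hbW : b ∈ W := stays hX hZ hW hb' hZm hb hZW hXW hWX
  obtain ⟨p, q, hp, hq, hpq, hWm⟩ := hYW.form hY
  have hbY : b ∉ Y := by
    intro h
    rcases (hYm b).1 h with h | h
    · exact hab h.symm
    · exact hb h.1
  have hqb : q = b := by
    rcases (hWm b).1 hbW with h | h
    · exact h.symm
    · exact absurd h.1 hbY
  subst hqb
  have hb'Y : b' ∈ Y := (hYm b').2 (Or.inr ⟨hb', fun h => hab' h.symm⟩)
  have hb'W : b' ∉ W := fun h => hW.1 b' h q hbW hbb
  have hpb : p = b' := by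
    by_contra h
    exact hb'W ((hWm b').2 (Or.inr ⟨hb'Y, fun h' => h h'.symm⟩))
  subst hpb
  intro v
  rw [hWm v, hYm v]
  constructor
  · rintro (h | ⟨h | h, h2⟩)
    · exact Or.inr (Or.inl h)
    · exact Or.inl h
    · exact Or.inr (Or.inr ⟨h.1, h.2, h2⟩)
  · rintro (h | h | h)
    · refine Or.inr ⟨Or.inl h, ?_⟩
      rintro rfl
      rw [h] at hb'
      exact ha hb'
    · exact Or.inl h
    · exact Or.inr ⟨Or.inr ⟨h.1, h.2.1⟩, h.2.2⟩

/-- In a finite graph every independent set lies in an independent dominating set. -/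
theorem exists_indepDom_superset [Finite V] (G : SimpleGraph V) (T : Finset V)
    (hT : ∀ x ∈ T, ∀ y ∈ T, ¬ G.Adj x y) : ∃ T', T ⊆ T' ∧ IndepDom G T' := by
  classical
  have hfin : Set.Finite {S : Finset V | T ⊆ S ∧ ∀ x ∈ S, ∀ y ∈ S, ¬ G.Adj x y} := by
    have := Fintype.ofFinite V
    exact Set.toFinite _
  obtain ⟨M, hM⟩ := hfin.exists_maximal ⟨T, Finset.Subset.refl _, hT⟩
  refine ⟨M, hM.1.1, hM.1.2, fun x hx => ?_⟩
  by_contra hcon
  push Not at hcon
  have hins : insert x M ∈ {S : Finset V | T ⊆ S ∧ ∀ x ∈ S, ∀ y ∈ S, ¬ G.Adj x y} := by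
    refine ⟨hM.1.1.trans (Finset.subset_insert _ _), ?_⟩
    intro u hu v hv
    rw [Finset.mem_insert] at hu hv
    rcases hu with rfl | hu <;> rcases hv with rfl | hv
    · exact G.loopless.irrefl _
    · exact hcon v hv
    · exact fun h => hcon u hu h.symm
    · exact hM.1.2 u hu v hv
  exact hx (hM.2 hins (Finset.subset_insert _ _) (Finset.mem_insert_self _ _))

/-- In a well-covered graph, seven `i`-sets arranged as the cube minus a vertex force an eighth
`i`-set. -/
theorem missing_corner [Finite V] {G : SimpleGraph V} (hG : WellCovered G)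
    {X Y₁ Y₂ Y₃ W₁₂ W₁₃ W₂₃ : Finset V}
    (hX : IsISet G X) (hY₁ : IsISet G Y₁) (hY₂ : IsISet G Y₂) (hY₃ : IsISet G Y₃)
    (hW₁₂ : IsISet G W₁₂) (hW₁₃ : IsISet G W₁₃) (hW₂₃ : IsISet G W₂₃)
    (h₁ : Slide G X Y₁) (h₂ : Slide G X Y₂) (h₃ : Slide G X Y₃)
    (n₁₂ : ¬ Slide G Y₁ Y₂) (n₁₃ : ¬ Slide G Y₁ Y₃) (n₂₃ : ¬ Slide G Y₂ Y₃)
    (d₁₂ : Y₁ ≠ Y₂) (d₁₃ : Y₁ ≠ Y₃) (d₂₃ : Y₂ ≠ Y₃)
    (s₁₂ : Slide G Y₁ W₁₂) (s₂₁ : Slide G Y₂ W₁₂)
    (s₁₃ : Slide G Y₁ W₁₃) (s₃₁ : Slide G Y₃ W₁₃)
    (s₂₃ : Slide G Y₂ W₂₃) (s₃₂ : Slide G Y₃ W₂₃)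
    (m₁₂ : ¬ Slide G X W₁₂) (m₁₃ : ¬ Slide G X W₁₃) (m₂₃ : ¬ Slide G X W₂₃)
    (e₁₂ : W₁₂ ≠ X) (e₁₃ : W₁₃ ≠ X) (e₂₃ : W₂₃ ≠ X) :
    ∃ T, IsISet G T ∧ T ≠ X ∧ T ≠ Y₁ ∧ T ≠ Y₂ ∧ T ≠ Y₃ ∧ T ≠ W₁₂ ∧ T ≠ W₁₃ ∧ T ≠ W₂₃ := by
  classical
  obtain ⟨a', a, ha', ha, haa, hYa⟩ := h₁.form hX.1
  obtain ⟨b', b, hb', hb, hbb, hYb⟩ := h₂.form hX.1
  obtain ⟨c', c, hc', hc, hcc, hYc⟩ := h₃.form hX.1
  obtain ⟨hab', hab⟩ := distinct_moves hY₁.1 hY₂.1 ha' ha haa hYa hb hYb n₁₂ d₁₂
  obtain ⟨hac', hac⟩ := distinct_moves hY₁.1 hY₃.1 ha' ha haa hYa hc hYc n₁₃ d₁₃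
  obtain ⟨hbc', hbc⟩ := distinct_moves hY₂.1 hY₃.1 hb' hb hbb hYb hc hYc n₂₃ d₂₃
  have w₁₂ := fourth_corner hX.1 hY₁.1 hY₂.1 hW₁₂.1 ha' ha haa hYa hb' hb hbb hYb n₁₂ d₁₂
    s₁₂ s₂₁ m₁₂ e₁₂
  have w₁₃ := fourth_corner hX.1 hY₁.1 hY₃.1 hW₁₃.1 ha' ha haa hYa hc' hc hcc hYc n₁₃ d₁₃
    s₁₃ s₃₁ m₁₃ e₁₃
  have w₂₃ := fourth_corner hX.1 hY₂.1 hY₃.1 hW₂₃.1 hb' hb hbb hYb hc' hc hcc hYc n₂₃ d₂₃
    s₂₃ s₃₂ m₂₃ e₂₃
  let R : Finset V := ((X.erase a').erase b').erase c'
  let T : Finset V := insert a (insert b (insert c R))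
  have hR : ∀ v, v ∈ R ↔ (v ∈ X ∧ v ≠ a' ∧ v ≠ b' ∧ v ≠ c') := by
    intro v
    simp only [R, Finset.mem_erase]
    tauto
  have hT : ∀ v, v ∈ T ↔ (v = a ∨ v = b ∨ v = c ∨ (v ∈ X ∧ v ≠ a' ∧ v ≠ b' ∧ v ≠ c')) := by
    intro v
    simp only [T, Finset.mem_insert, hR]
  -- the size of `T`
  have hcR : c ∉ R := fun h => hc ((hR c).1 h).1
  have hbR : b ∉ insert c R := by
    rw [Finset.mem_insert]
    rintro (h | h)
    · exact hbc h
    · exact hb ((hR b).1 h).1
  have haR : a ∉ insert b (insert c R) := by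
    rw [Finset.mem_insert, Finset.mem_insert]
    rintro (h | h | h)
    · exact hab h
    · exact hac h
    · exact ha ((hR a).1 h).1
  have hb'' : b' ∈ X.erase a' := Finset.mem_erase.2 ⟨fun h => hab' h.symm, hb'⟩
  have hc'' : c' ∈ (X.erase a').erase b' :=
    Finset.mem_erase.2 ⟨fun h => hbc' h.symm, Finset.mem_erase.2 ⟨fun h => hac' h.symm, hc'⟩⟩
  have hcard : T.card = X.card := by
    have h1 : T.card = R.card + 3 := by
      rw [Finset.card_insert_of_notMem haR, Finset.card_insert_of_notMem hbR,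
        Finset.card_insert_of_notMem hcR]
    have h2 : R.card + 1 = ((X.erase a').erase b').card := Finset.card_erase_add_one hc''
    have h3 : ((X.erase a').erase b').card + 1 = (X.erase a').card :=
      Finset.card_erase_add_one hb''
    have h4 : (X.erase a').card + 1 = X.card := Finset.card_erase_add_one ha'
    omega
  -- `T` is independent
  have iab : ¬ G.Adj a b :=
    hW₁₂.1.1 a ((w₁₂ a).2 (Or.inl rfl)) b ((w₁₂ b).2 (Or.inr (Or.inl rfl)))
  have iac : ¬ G.Adj a c :=
    hW₁₃.1.1 a ((w₁₃ a).2 (Or.inl rfl)) c ((w₁₃ c).2 (Or.inr (Or.inl rfl)))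
  have ibc : ¬ G.Adj b c :=
    hW₂₃.1.1 b ((w₂₃ b).2 (Or.inl rfl)) c ((w₂₃ c).2 (Or.inr (Or.inl rfl)))
  have iaX : ∀ v, v ∈ X ∧ v ≠ a' ∧ v ≠ b' ∧ v ≠ c' → ¬ G.Adj a v := fun v hv =>
    hY₁.1.1 a ((hYa a).2 (Or.inl rfl)) v ((hYa v).2 (Or.inr ⟨hv.1, hv.2.1⟩))
  have ibX : ∀ v, v ∈ X ∧ v ≠ a' ∧ v ≠ b' ∧ v ≠ c' → ¬ G.Adj b v := fun v hv =>
    hY₂.1.1 b ((hYb b).2 (Or.inl rfl)) v ((hYb v).2 (Or.inr ⟨hv.1, hv.2.2.1⟩))
  have icX : ∀ v, v ∈ X ∧ v ≠ a' ∧ v ≠ b' ∧ v ≠ c' → ¬ G.Adj c v := fun v hv =>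
    hY₃.1.1 c ((hYc c).2 (Or.inl rfl)) v ((hYc v).2 (Or.inr ⟨hv.1, hv.2.2.2⟩))
  have hind : ∀ x ∈ T, ∀ y ∈ T, ¬ G.Adj x y := by
    intro x hx y hy
    rw [hT] at hx hy
    rcases hx with rfl | rfl | rfl | hx <;> rcases hy with rfl | rfl | rfl | hy
    · exact G.loopless.irrefl _
    · exact iab
    · exact iac
    · exact iaX y hy
    · exact fun h => iab h.symm
    · exact G.loopless.irrefl _
    · exact ibc
    · exact ibX y hy
    · exact fun h => iac h.symm
    · exact fun h => ibc h.symm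
    · exact G.loopless.irrefl _
    · exact icX y hy
    · exact fun h => iaX x hx h.symm
    · exact fun h => ibX x hx h.symm
    · exact fun h => icX x hx h.symm
    · exact hX.1.1 x hx.1 y hy.1
  -- hence an independent dominating set
  obtain ⟨T', hTT', hT'⟩ := exists_indepDom_superset G T hind
  have hTeq : T = T' := Finset.eq_of_subset_of_card_le hTT' (by rw [hcard, hG T' X hT' hX.1])
  have hTdom : IndepDom G T := by rw [hTeq]; exact hT'
  have haT : a ∈ T := (hT a).2 (Or.inl rfl)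
  have hbT : b ∈ T := (hT b).2 (Or.inr (Or.inl rfl))
  have hcT : c ∈ T := (hT c).2 (Or.inr (Or.inr (Or.inl rfl)))
  refine ⟨T, ⟨hTdom, fun U hU => by rw [hcard]; exact hX.2 U hU⟩, ?_, ?_, ?_, ?_, ?_, ?_, ?_⟩
  · rintro h
    rw [h] at haT
    exact ha haT
  · rintro h
    rw [h, hYa] at hbT
    rcases hbT with h | h
    · exact hab h.symm
    · exact hb h.1
  · rintro h
    rw [h, hYb] at haT
    rcases haT with h | h
    · exact hab h
    · exact ha h.1
  · rintro h
    rw [h, hYc] at haT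
    rcases haT with h | h
    · exact hac h
    · exact ha h.1
  · rintro h
    rw [h, w₁₂] at hcT
    rcases hcT with h | h | h
    · exact hac h.symm
    · exact hbc h.symm
    · exact hc h.1
  · rintro h
    rw [h, w₁₃] at hbT
    rcases hbT with h | h | h
    · exact hab h.symm
    · exact hbc h
    · exact hb h.1
  · rintro h
    rw [h, w₂₃] at haT
    rcases haT with h | h | h
    · exact hab h
    · exact hac h
    · exact ha h.1

/-- A vertex of the cube minus `(true, true, true)`. -/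
def vtx (p q r : Bool) (h : (![p, q, r] : Fin 3 → Bool) ≠ fun _ => true) :
    {x : Fin 3 → Bool // x ≠ fun _ => true} := ⟨![p, q, r], h⟩

theorem vtx_cases (x : {x : Fin 3 → Bool // x ≠ fun _ => true}) :
    x = vtx false false false (by decide) ∨ x = vtx true false false (by decide) ∨
    x = vtx false true false (by decide) ∨ x = vtx false false true (by decide) ∨
    x = vtx true true false (by decide) ∨ x = vtx true false true (by decide) ∨
    x = vtx false true true (by decide) := by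
  obtain ⟨x, hx⟩ := x
  simp only [vtx, Subtype.mk.injEq]
  revert x
  decide

instance : DecidableRel cubeMinus.Adj := fun x y =>
  inferInstanceAs (Decidable (∃ i, x.1 i ≠ y.1 i ∧ ∀ j, x.1 j ≠ y.1 j → j = i))

theorem no_wellCovered_seed [Finite V] (G : SimpleGraph V) (hG : WellCovered G) :
    IsEmpty (iGraph G ≃g cubeMinus) := by
  refine ⟨fun e => ?_⟩
  have hadj : ∀ x y, cubeMinus.Adj x y → Slide G (e.symm x).1 (e.symm y).1 := fun x y h =>
    (e.symm.map_adj_iff (v := x) (w := y)).2 h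
  have hnadj : ∀ x y, ¬ cubeMinus.Adj x y → ¬ Slide G (e.symm x).1 (e.symm y).1 :=
    fun x y h h' => h ((e.symm.map_adj_iff (v := x) (w := y)).1 h')
  have hne : ∀ x y, x ≠ y → (e.symm x).1 ≠ (e.symm y).1 := fun x y h h' =>
    h (e.symm.injective (Subtype.ext h'))
  obtain ⟨T, hT, t0, t1, t2, t3, t4, t5, t6⟩ := missing_corner hG
    (e.symm (vtx false false false (by decide))).2
    (e.symm (vtx true false false (by decide))).2
    (e.symm (vtx false true false (by decide))).2
    (e.symm (vtx false false true (by decide))).2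
    (e.symm (vtx true true false (by decide))).2
    (e.symm (vtx true false true (by decide))).2
    (e.symm (vtx false true true (by decide))).2
    (hadj _ _ (by decide)) (hadj _ _ (by decide)) (hadj _ _ (by decide))
    (hnadj _ _ (by decide)) (hnadj _ _ (by decide)) (hnadj _ _ (by decide))
    (hne _ _ (by decide)) (hne _ _ (by decide)) (hne _ _ (by decide))
    (hadj _ _ (by decide)) (hadj _ _ (by decide)) (hadj _ _ (by decide))
    (hadj _ _ (by decide)) (hadj _ _ (by decide)) (hadj _ _ (by decide))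
    (hnadj _ _ (by decide)) (hnadj _ _ (by decide)) (hnadj _ _ (by decide))
    (hne _ _ (by decide)) (hne _ _ (by decide)) (hne _ _ (by decide))
  have hback : (e.symm (e ⟨T, hT⟩)).1 = T := by rw [e.symm_apply_apply]
  rcases vtx_cases (e ⟨T, hT⟩) with h | h | h | h | h | h | h <;> rw [h] at hback
  · exact t0 hback.symm
  · exact t1 hback.symm
  · exact t2 hback.symm
  · exact t3 hback.symm
  · exact t4 hback.symm
  · exact t5 hback.symm
  · exact t6 hback.symm

/-- **The cube minus a vertex is an `i`-graph without a well-covered seed graph.**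
The graph `cubeMinus` is the `i`-graph of some finite graph, but it is not isomorphic to the
`i`-graph of any finite well-covered graph. -/
theorem result :
    (∃ (V : Type) (_ : Finite V) (G : SimpleGraph V), Nonempty (iGraph G ≃g cubeMinus)) ∧
    ∀ (V : Type u) [Finite V] (G : SimpleGraph V), WellCovered G →
      IsEmpty (iGraph G ≃g cubeMinus) :=
  ⟨⟨Option (Fin 3 × Bool), inferInstance, seed, nonempty_iso⟩,
    fun _ _ G hG => no_wellCovered_seed G hG⟩

end Pool.Agent.Results.MP_88e7bb_co.CubeMinusVertex
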